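import Pool.Agent.H.MP_dc1b93_an.E

set_option autoImplicit false

namespace Pool.Agent.Results.MP_dc1b93_an.Admissible

/-- `T` is hypercyclic, `T ⊕ T` is not cyclic and the spectrum of `T` is `{1}`. -/
def Adm {X : Type} [NormedAddCommGroup X] [NormedSpace ℂ X] (T : X →L[ℂ] X) : Prop :=
  (∃ x : X, Dense (Set.range fun n : ℕ => (T ^ n) x)) ∧
  (¬ ∃ p : X × X, Dense (Submodule.span ℂ (Set.range fun n : ℕ => ((T.prodMap T) ^ n) p) :
    Set (X × X))) ∧
  spectrum ℂ T = {1}

theorem result :
    (∀ (X : Type) [NormedAddCommGroup X] [NormedSpace ℂ X] [CompleteSpace X]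
      [TopologicalSpace.SeparableSpace X], ¬ FiniteDimensional ℂ X → ∃ T : X →L[ℂ] X, Adm T) ∧
    ∃ T : lp (fun _ : ℕ => ℂ) 2 →L[ℂ] lp (fun _ : ℕ => ℂ) 2, Adm T := by
  refine ⟨fun X _ _ _ _ h => Pool.Agent.H.MP_dc1b93_an.main h, ?_⟩
  set e : ℕ → lp (fun _ : ℕ => ℂ) 2 := fun j => lp.single 2 j 1 with he
  have : TopologicalSpace.SeparableSpace (lp (fun _ : ℕ => ℂ) 2) := by
    have h : Dense (Submodule.span ℂ (Set.range e) : Set (lp (fun _ : ℕ => ℂ) 2)) := fun x =>
      mem_closure_of_tendsto (lp.hasSum_single (p := 2) (by simp) x).tendsto_sum_nat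
        (Filter.Eventually.of_forall fun n => Submodule.sum_mem _ fun j _ => by
          have : lp.single 2 j (x j) = x j • e j := by
            rw [he, ← lp.single_smul]; simp
          rw [this]
          exact Submodule.smul_mem _ _ (Submodule.subset_span ⟨j, rfl⟩))
    exact h.isSeparable_iff.1 ((Set.countable_range e).isSeparable.span (R := ℂ))
  refine Pool.Agent.H.MP_dc1b93_an.main fun h => ?_
  have hli : LinearIndependent ℂ e := by
    rw [linearIndependent_iff']
    intro s g hg i hi
    have := congrArg (lp.evalCLM ℂ (fun _ : ℕ => ℂ) 2 i) hg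
    rw [map_sum, map_zero, Finset.sum_eq_single i] at this
    · simpa [he, lp.evalCLM] using this
    · intro j _ hj
      simp [he, lp.evalCLM, hj.symm]
    · exact fun h => absurd hi h
  have := hli.finite
  exact not_finite ℕ

end Pool.Agent.Results.MP_dc1b93_an.Admissible
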